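import Mathlib
import Pool.Agent.R958.HamC

/-!
# Bootstrap percolation on Hamming tori: planes appear before the torus fills

For threshold three and every dimension `d ≥ 235` the critical values for an open plane and for
the whole torus differ by a power of `n`.
-/

set_option autoImplicit false

open MeasureTheory ProbabilityTheory

namespace Pool.Agent.Results.MP_af82af_pr.PlaneGap

open Pool.Agent.R958.Ham

/-- For threshold `3` and every `d ≥ 235`, for all large `n` the critical values `p_c(2, d)` and
`p_c(d, d)` exist and `log_n p_c(d, d) - log_n p_c(2, d) ≥ (d - 234) / 40 > 0`. -/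
theorem result (d : ℕ) (hd : 235 ≤ d) :
    0 < ((d : ℝ) - 234) / 40 ∧ ∀ᶠ n : ℕ in Filter.atTop,
      (∃ p, IsCritical n d 3 2 p) ∧ (∃ q, IsCritical n d 3 d q) ∧
      ∀ p q, IsCritical n d 3 2 p → IsCritical n d 3 d q →
        ((d : ℝ) - 234) / 40 ≤ Real.logb n q - Real.logb n p := by
  refine ⟨?_, gap hd⟩
  have : (235:ℝ) ≤ d := by exact_mod_cast hd
  linarith

end Pool.Agent.Results.MP_af82af_pr.PlaneGap
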